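import Pool.Agent.H29.HS.Iface

/-!
# Module B0 for MP_a2e4e3_an: uncurrying of product measures
-/

set_option autoImplicit false

namespace Pool.Agent.H3.HS
open MeasureTheory Finset Pool.Agent.H29.HS

lemma pi_map_curry {Ω : Type} [MeasurableSpace Ω] (μ : Measure Ω) [IsProbabilityMeasure μ]
    (ι κ : Type) [Fintype ι] [Fintype κ] :
    (Measure.pi fun _ : ι × κ => μ).map (MeasurableEquiv.curry ι κ Ω) =
      Measure.pi fun _ : ι => (Measure.pi fun _ : κ => μ) := by
  have h := Measure.infinitePi_map_curry (ι := ι) (κ := κ) (X := Ω) (fun _ _ => μ)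
  simp only [Measure.infinitePi_eq_pi] at h
  exact h

theorem b0 : B0Stmt := by
  intro Ω _ μ _ ι κ _ _ X hX
  unfold nrm
  rw [← pi_map_curry μ ι κ, integral_map_equiv]
  rfl

end Pool.Agent.H3.HS
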