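import Pool.Agent.H29.HS.Iface

/-!
# Module B1 for MP_a2e4e3_an: comparison of compositions in `L_p`, `p = 10/9`
-/

set_option autoImplicit false

namespace Pool.Agent.H3.HS
open MeasureTheory Finset Pool.Agent.H29.HS

/-- the exponent `10/9` as an extended nonnegative real -/
noncomputable def pp : ENNReal := ENNReal.ofReal (10 / 9)

lemma pp_ne_zero : pp ≠ 0 := by
  unfold pp
  simp

lemma pp_ne_top : pp ≠ ⊤ := by
  unfold pp
  simp

lemma pp_toReal : pp.toReal = 10 / 9 := by
  unfold pp
  rw [ENNReal.toReal_ofReal (by norm_num)]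

lemma one_le_pp : 1 ≤ pp := by
  unfold pp
  rw [ENNReal.one_le_ofReal]
  norm_num

section basics
variable {Ω : Type} [MeasurableSpace Ω] (μ : Measure Ω) [IsProbabilityMeasure μ]

lemma BM.memLp {X : Ω → ℝ} (hX : BM X) : MemLp X pp μ := by
  obtain ⟨hm, B, hB⟩ := hX
  exact MemLp.of_bound hm.aestronglyMeasurable B (Filter.Eventually.of_forall fun x => by
    rw [Real.norm_eq_abs]; exact hB x)

lemma BM.integrable {X : Ω → ℝ} (hX : BM X) : Integrable X μ := by
  obtain ⟨hm, B, hB⟩ := hX
  exact Integrable.of_bound hm.aestronglyMeasurable B (Filter.Eventually.of_forall fun x => by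
    rw [Real.norm_eq_abs]; exact hB x)

lemma nrm_eq {X : Ω → ℝ} (hX : BM X) : nrm μ X = (eLpNorm X pp μ).toReal := by
  rw [MemLp.eLpNorm_eq_integral_rpow_norm pp_ne_zero pp_ne_top (BM.memLp μ hX), pp_toReal,
    ENNReal.toReal_ofReal]
  · unfold nrm
    simp only [Real.norm_eq_abs]
    norm_num
  · apply Real.rpow_nonneg
    apply integral_nonneg
    intro x
    positivity

omit [IsProbabilityMeasure μ] in
lemma nrm_nonneg (X : Ω → ℝ) : 0 ≤ nrm μ X := by
  unfold nrm
  apply Real.rpow_nonneg
  apply integral_nonneg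
  intro x
  positivity

end basics

section BMclosure
variable {Ω : Type} [MeasurableSpace Ω]

lemma BM.add {X Y : Ω → ℝ} (hX : BM X) (hY : BM Y) : BM (fun x => X x + Y x) := by
  obtain ⟨hm, B, hB⟩ := hX
  obtain ⟨hm', B', hB'⟩ := hY
  exact ⟨hm.add hm', B + B', fun x => (abs_add_le _ _).trans (add_le_add (hB x) (hB' x))⟩

lemma BM.sub {X Y : Ω → ℝ} (hX : BM X) (hY : BM Y) : BM (fun x => X x - Y x) := by
  obtain ⟨hm, B, hB⟩ := hX
  obtain ⟨hm', B', hB'⟩ := hY
  exact ⟨hm.sub hm', B + B', fun x => (abs_sub _ _).trans (add_le_add (hB x) (hB' x))⟩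

lemma BM.mul {X Y : Ω → ℝ} (hX : BM X) (hY : BM Y) : BM (fun x => X x * Y x) := by
  obtain ⟨hm, B, hB⟩ := hX
  obtain ⟨hm', B', hB'⟩ := hY
  refine ⟨hm.mul hm', B * B', fun x => ?_⟩
  rw [abs_mul]
  exact mul_le_mul (hB x) (hB' x) (abs_nonneg _) ((abs_nonneg _).trans (hB x))

lemma BM.const (c : ℝ) : BM (fun _ : Ω => c) := ⟨measurable_const, |c|, fun _ => le_rfl⟩

lemma BM.sum {α : Type} (s : Finset α) (f : α → Ω → ℝ) (hf : ∀ i ∈ s, BM (f i)) :
    BM (fun x => ∑ i ∈ s, f i x) := by
  classical
  induction s using Finset.induction_on with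
  | empty => simpa using BM.const (Ω := Ω) 0
  | insert i s hi ih =>
    simp only [Finset.sum_insert hi]
    exact BM.add (hf i (by simp)) (ih fun j hj => hf j (by simp [hj]))

lemma BM.prod {α : Type} (s : Finset α) (f : α → Ω → ℝ) (hf : ∀ i ∈ s, BM (f i)) :
    BM (fun x => ∏ i ∈ s, f i x) := by
  classical
  induction s using Finset.induction_on with
  | empty => simpa using BM.const (Ω := Ω) 1
  | insert i s hi ih =>
    simp only [Finset.prod_insert hi]
    exact BM.mul (hf i (by simp)) (ih fun j hj => hf j (by simp [hj]))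

lemma BM.coord {ι : Type} {X : Ω → ℝ} (hX : BM X) (i : ι) :
    BM (fun ω : ι → Ω => X (ω i)) := by
  obtain ⟨hm, B, hB⟩ := hX
  exact ⟨hm.comp (measurable_pi_apply i), B, fun ω => hB _⟩

end BMclosure

section norm
variable {Ω : Type} [MeasurableSpace Ω] (μ : Measure Ω) [IsProbabilityMeasure μ]

lemma nrm_add_le {X Y : Ω → ℝ} (hX : BM X) (hY : BM Y) :
    nrm μ (fun x => X x + Y x) ≤ nrm μ X + nrm μ Y := by
  rw [nrm_eq μ hX, nrm_eq μ hY, nrm_eq μ (BM.add hX hY),
    ← ENNReal.toReal_add (BM.memLp μ hX).2.ne (BM.memLp μ hY).2.ne]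
  apply ENNReal.toReal_mono
  · exact ENNReal.add_ne_top.2 ⟨(BM.memLp μ hX).2.ne, (BM.memLp μ hY).2.ne⟩
  · exact eLpNorm_add_le hX.1.aestronglyMeasurable hY.1.aestronglyMeasurable one_le_pp

omit [IsProbabilityMeasure μ] in
lemma nrm_const_mul (c : ℝ) (X : Ω → ℝ) :
    nrm μ (fun x => c * X x) = |c| * nrm μ X := by
  unfold nrm
  have h : ∀ x, |c * X x| ^ (10 / 9 : ℝ) = |c| ^ (10 / 9 : ℝ) * |X x| ^ (10 / 9 : ℝ) := by
    intro x
    rw [abs_mul, Real.mul_rpow (abs_nonneg _) (abs_nonneg _)]
  simp only [h]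
  rw [integral_const_mul, Real.mul_rpow (by positivity), ← Real.rpow_mul (abs_nonneg _)]
  · norm_num
  · apply integral_nonneg
    intro x
    positivity

lemma nrm_sum_le {α : Type} (s : Finset α) (f : α → Ω → ℝ) (hf : ∀ i ∈ s, BM (f i)) :
    nrm μ (fun x => ∑ i ∈ s, f i x) ≤ ∑ i ∈ s, nrm μ (f i) := by
  classical
  induction s using Finset.induction_on with
  | empty =>
    simp only [Finset.sum_empty]
    unfold nrm
    simp
  | insert i s hi ih =>
    simp only [Finset.sum_insert hi]
    refine (nrm_add_le μ (hf i (by simp)) (BM.sum s f fun j hj => hf j (by simp [hj]))).trans ?_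
    exact add_le_add le_rfl (ih fun j hj => hf j (by simp [hj]))

lemma abs_nrm_sub_nrm_le {X Y : Ω → ℝ} (hX : BM X) (hY : BM Y) :
    |nrm μ X - nrm μ Y| ≤ nrm μ (fun x => X x - Y x) := by
  have h1 : nrm μ X ≤ nrm μ (fun x => X x - Y x) + nrm μ Y := by
    have := nrm_add_le μ (BM.sub hX hY) hY
    simpa using this
  have h2 : nrm μ Y ≤ nrm μ (fun x => X x - Y x) + nrm μ X := by
    have h3 : nrm μ (fun x => X x - Y x) = nrm μ (fun x => Y x - X x) := by
      unfold nrm
      simp only [abs_sub_comm]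
    have := nrm_add_le μ (BM.sub hY hX) hX
    rw [h3]
    simpa using this
  rw [abs_le]
  constructor <;> linarith

/-- independence -/
lemma nrm_pi_prod {ι : Type} [Fintype ι] (f : ι → Ω → ℝ) :
    nrm (Measure.pi fun _ : ι => μ) (fun ω => ∏ i, f i (ω i)) = ∏ i, nrm μ (f i) := by
  unfold nrm
  have h : ∀ ω : ι → Ω, |∏ i, f i (ω i)| ^ (10 / 9 : ℝ) = ∏ i, |f i (ω i)| ^ (10 / 9 : ℝ) := by
    intro ω
    rw [Finset.abs_prod, Real.finsetProd_rpow _ _ (fun i _ => abs_nonneg _)]
  simp only [h]
  rw [integral_fintype_prod_eq_prod (𝕜 := ℝ) (fun i x => |f i x| ^ (10 / 9 : ℝ)),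
    Real.finsetProd_rpow]
  intro i _
  apply integral_nonneg
  intro x
  positivity

lemma nrm_one : nrm μ (fun _ => (1 : ℝ)) = 1 := by
  unfold nrm
  simp

lemma nrm_pi_prod_finset {ι : Type} [Fintype ι] [DecidableEq ι] (S : Finset ι)
    (f : ι → Ω → ℝ) :
    nrm (Measure.pi fun _ : ι => μ) (fun ω => ∏ i ∈ S, f i (ω i)) = ∏ i ∈ S, nrm μ (f i) := by
  have h : ∀ ω : ι → Ω, ∏ i ∈ S, f i (ω i) = ∏ i, (if i ∈ S then f i else fun _ => 1) (ω i) := by
    intro ω
    rw [← Finset.prod_subset (Finset.subset_univ S)]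
    · apply Finset.prod_congr rfl
      intro i hi
      simp [hi]
    · intro i _ hi
      simp [hi]
  simp only [h]
  rw [nrm_pi_prod, ← Finset.prod_subset (Finset.subset_univ S)]
  · apply Finset.prod_congr rfl
    intro i hi
    simp [hi]
  · intro i _ hi
    simp [hi, nrm_one]

/-- difference of products of independent variables -/
lemma nrm_prod_sub_prod_le {ι : Type} [Fintype ι] [DecidableEq ι] (S : Finset ι)
    (F G : ι → Ω → ℝ) (δ : ℝ) (hδ : δ ≤ 1) (hF : ∀ i, BM (F i)) (hG : ∀ i, BM (G i))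
    (hF3 : ∀ i, nrm μ (F i) ≤ 2) (hd : ∀ i, nrm μ (fun x => G i x - F i x) ≤ δ)
    (hδ0 : 0 ≤ δ) :
    nrm (Measure.pi fun _ : ι => μ) (fun ω => ∏ i ∈ S, G i (ω i) - ∏ i ∈ S, F i (ω i)) ≤
      4 ^ S.card * δ := by
  have h : ∀ ω : ι → Ω, ∏ i ∈ S, G i (ω i) - ∏ i ∈ S, F i (ω i) =
      ∑ t ∈ S.powerset.erase S, ∏ i ∈ S, (if i ∈ t then F i else fun x => G i x - F i x) (ω i) := by
    intro ω
    have h1 : ∏ i ∈ S, G i (ω i) = ∏ i ∈ S, (F i (ω i) + (G i (ω i) - F i (ω i))) := by
      apply Finset.prod_congr rfl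
      intro i _
      ring
    have h2 : ∀ t ∈ S.powerset, (∏ i ∈ t, F i (ω i)) * ∏ i ∈ S \ t, (G i (ω i) - F i (ω i)) =
        ∏ i ∈ S, (if i ∈ t then F i else fun x => G i x - F i x) (ω i) := by
      intro t ht
      rw [Finset.mem_powerset] at ht
      rw [← Finset.prod_sdiff ht, mul_comm]
      congr 1
      · apply Finset.prod_congr rfl
        intro i hi
        simp [(Finset.mem_sdiff.1 hi).2]
      · apply Finset.prod_congr rfl
        intro i hi
        simp [hi]
    rw [h1, Finset.prod_add, Finset.sum_congr rfl h2,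
      ← Finset.add_sum_erase _ _ (Finset.mem_powerset_self S)]
    have h3 : ∏ i ∈ S, (if i ∈ S then F i else fun x => G i x - F i x) (ω i) =
        ∏ i ∈ S, F i (ω i) := by
      apply Finset.prod_congr rfl
      intro i hi
      simp [hi]
    rw [h3]
    ring
  simp only [h]
  refine (nrm_sum_le _ _ _ ?_).trans ?_
  · intro t _
    apply BM.prod
    intro i _
    apply BM.coord
    split_ifs
    · exact hF i
    · exact BM.sub (hG i) (hF i)
  · have hterm : ∀ t ∈ S.powerset.erase S, nrm (Measure.pi fun _ : ι => μ)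
        (fun ω => ∏ i ∈ S, (if i ∈ t then F i else fun x => G i x - F i x) (ω i)) ≤
        2 ^ S.card * δ := by
      intro t ht
      rw [Finset.mem_erase, Finset.mem_powerset] at ht
      obtain ⟨hne, hsub⟩ := ht
      rw [nrm_pi_prod_finset]
      obtain ⟨i, hiS, hit⟩ : ∃ i ∈ S, i ∉ t := by
        by_contra hcon
        push Not at hcon
        exact hne (Finset.Subset.antisymm hsub hcon)
      rw [← Finset.mul_prod_erase S _ hiS]
      have h1 : nrm μ (if i ∈ t then F i else fun x => G i x - F i x) ≤ δ := by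
        rw [if_neg hit]
        exact hd i
      have h2 : ∏ j ∈ S.erase i, nrm μ (if j ∈ t then F j else fun x => G j x - F j x) ≤
          2 ^ S.card := by
        calc ∏ j ∈ S.erase i, nrm μ (if j ∈ t then F j else fun x => G j x - F j x)
            ≤ ∏ j ∈ S.erase i, (2 : ℝ) := by
              apply Finset.prod_le_prod
              · intro j _
                exact nrm_nonneg _ _
              · intro j _
                split_ifs
                · exact hF3 j
                · exact (hd j).trans (by linarith)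
          _ = 2 ^ (S.erase i).card := by rw [Finset.prod_const]
          _ ≤ 2 ^ S.card := by
              apply pow_le_pow_right₀ (by norm_num)
              exact Finset.card_le_card (Finset.erase_subset _ _)
      calc _ ≤ δ * 2 ^ S.card := by
            apply mul_le_mul h1 h2 _ hδ0
            apply Finset.prod_nonneg
            intro j _
            exact nrm_nonneg _ _
        _ = 2 ^ S.card * δ := by ring
    calc _ ≤ ∑ t ∈ S.powerset.erase S, 2 ^ S.card * δ := Finset.sum_le_sum hterm
      _ = ((S.powerset.erase S).card : ℝ) * (2 ^ S.card * δ) := by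
          rw [Finset.sum_const, nsmul_eq_mul]
      _ ≤ (2 ^ S.card) * (2 ^ S.card * δ) := by
          apply mul_le_mul_of_nonneg_right _ (by positivity)
          have : (S.powerset.erase S).card ≤ 2 ^ S.card := by
            rw [← Finset.card_powerset]
            exact Finset.card_le_card (Finset.erase_subset _ _)
          exact_mod_cast this
      _ = 4 ^ S.card * δ := by
          rw [← mul_assoc, ← mul_pow]
          norm_num

end norm

theorem b1 : B1Stmt := by
  intro ι _ _ a
  refine ⟨∑ S : Finset ι, |a S| * ((1 + S.card) * 4 ^ S.card), by positivity, ?_⟩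
  intro Ω _ μ _ X Y Z δ hX hY hZ hY2 hδ hXY hZY
  have hδ0 : 0 ≤ δ := (nrm_nonneg _ _).trans hXY
  have hBMprod : ∀ (S : Finset ι) (F : ι → Ω → ℝ), (∀ i, BM (F i)) →
      BM (fun ω : ι → Ω => ∏ i ∈ S, F i (ω i)) := by
    intro S F hF
    exact BM.prod S _ fun i _ => BM.coord (hF i) i
  have hmev : ∀ (b : Finset ι → ℝ) (W : Ω → ℝ), BM W →
      BM (fun ω : ι → Ω => mev b fun i => W (ω i)) := by
    intro b W hW
    unfold mev
    apply BM.sum
    intro S _
    exact BM.mul (BM.const _) (hBMprod S (fun _ => W) fun _ => hW)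
  constructor
  · refine (abs_nrm_sub_nrm_le _ (hmev a Y hY) (hmev a X hX)).trans ?_
    have h : ∀ ω : ι → Ω, (mev a fun i => Y (ω i)) - (mev a fun i => X (ω i)) =
        ∑ S : Finset ι, (- a S) * (∏ i ∈ S, X (ω i) - ∏ i ∈ S, Y (ω i)) := by
      intro ω
      unfold mev
      rw [← Finset.sum_sub_distrib]
      apply Finset.sum_congr rfl
      intro S _
      ring
    simp only [h]
    refine (nrm_sum_le _ _ _ ?_).trans ?_
    · intro S _
      exact BM.mul (BM.const _) (BM.sub (hBMprod S (fun _ => X) fun _ => hX)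
        (hBMprod S (fun _ => Y) fun _ => hY))
    · rw [Finset.sum_mul]
      apply Finset.sum_le_sum
      intro S _
      rw [nrm_const_mul, abs_neg, mul_assoc]
      apply mul_le_mul_of_nonneg_left _ (abs_nonneg _)
      refine (nrm_prod_sub_prod_le μ S (fun _ => Y) (fun _ => X) δ hδ (fun _ => hY)
        (fun _ => hX) (fun _ => hY2) (fun _ => hXY) hδ0).trans ?_
      have : (0 : ℝ) ≤ S.card * 4 ^ S.card * δ := by positivity
      nlinarith
  · have hBM1 : BM (fun ω : ι → Ω => ∑ S : Finset ι, a S * ∑ i ∈ S,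
        Z (ω i) * ∏ j ∈ S.erase i, X (ω j)) := by
      apply BM.sum
      intro S _
      apply BM.mul (BM.const _)
      apply BM.sum
      intro i _
      exact BM.mul (BM.coord hZ i) (hBMprod _ (fun _ => X) fun _ => hX)
    refine (abs_nrm_sub_nrm_le _ hBM1 (hmev (num a) Y hY)).trans ?_
    have h : ∀ ω : ι → Ω, (∑ S : Finset ι, a S * ∑ i ∈ S,
        Z (ω i) * ∏ j ∈ S.erase i, X (ω j)) - (mev (num a) fun i => Y (ω i)) =
        ∑ S : Finset ι, a S * ∑ i ∈ S,
          (∏ j ∈ S, (if j = i then Z else X) (ω j) - ∏ j ∈ S, Y (ω j)) := by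
      intro ω
      unfold mev num
      rw [← Finset.sum_sub_distrib]
      apply Finset.sum_congr rfl
      intro S _
      rw [Finset.sum_sub_distrib, Finset.sum_const, nsmul_eq_mul, mul_sub]
      congr 1
      · congr 1
        apply Finset.sum_congr rfl
        intro i hi
        rw [← Finset.mul_prod_erase S _ hi]
        congr 1
        · simp
        · apply Finset.prod_congr rfl
          intro j hj
          rw [if_neg (Finset.ne_of_mem_erase hj)]
      · ring
    simp only [h]
    have hBM2 : ∀ (S : Finset ι) (i : ι), BM (fun ω : ι → Ω =>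
        ∏ j ∈ S, (if j = i then Z else X) (ω j) - ∏ j ∈ S, Y (ω j)) := by
      intro S i
      apply BM.sub
      · apply hBMprod S (fun j => if j = i then Z else X)
        intro j
        split_ifs
        · exact hZ
        · exact hX
      · exact hBMprod S (fun _ => Y) fun _ => hY
    refine (nrm_sum_le _ _ _ ?_).trans ?_
    · intro S _
      exact BM.mul (BM.const _) (BM.sum _ _ fun i _ => hBM2 S i)
    · rw [Finset.sum_mul]
      apply Finset.sum_le_sum
      intro S _
      rw [nrm_const_mul, mul_assoc]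
      apply mul_le_mul_of_nonneg_left _ (abs_nonneg _)
      refine (nrm_sum_le _ _ _ fun i _ => hBM2 S i).trans ?_
      calc _ ≤ ∑ i ∈ S, (4 : ℝ) ^ S.card * δ := by
            apply Finset.sum_le_sum
            intro i _
            apply nrm_prod_sub_prod_le μ S (fun _ => Y) (fun j => if j = i then Z else X) δ hδ
              (fun _ => hY) _ (fun _ => hY2) _ hδ0
            · intro j
              split_ifs
              · exact hZ
              · exact hX
            · intro j
              split_ifs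
              · exact hZY
              · exact hXY
        _ = S.card * (4 ^ S.card * δ) := by rw [Finset.sum_const, nsmul_eq_mul]
        _ ≤ (1 + S.card) * 4 ^ S.card * δ := by
            have : (0 : ℝ) ≤ 4 ^ S.card * δ := by positivity
            nlinarith

end Pool.Agent.H3.HS
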